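import Pool.Agent.W533.LP.Stm

/-!
# Moments of geometric sums and anti-concentration (project LP of helper533)
-/

namespace Pool.Agent.W990.LP.Mom

open MeasureTheory ProbabilityTheory Pool.Agent.W533.LP

/-- Integrals of functions of a geometric variable. -/
lemma geo_int {Ω : Type} [MeasurableSpace Ω] {μ : Measure Ω} [IsProbabilityMeasure μ] {a : ℝ}
    (ha0 : 0 ≤ a) (ha1 : a < 1) {X : Ω → ℕ} (hX : Measurable X)
    (law : ∀ k, μ.real {ω | X ω = k} = (1 - a) * a ^ k) (f : ℕ → ℝ)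
    (hf : Summable (fun k => |f k| * a ^ k)) :
    Integrable (fun ω => f (X ω)) μ ∧ HasSum (fun k => (1 - a) * a ^ k * f k) (∫ ω, f (X ω) ∂μ) := by
  have hreal : ∀ k, (μ.map X).real {k} = (1 - a) * a ^ k := by
    intro k
    rw [← law k, measureReal_def, Measure.map_apply hX (measurableSet_singleton k), measureReal_def]
    rfl
  have hfin : IsProbabilityMeasure (μ.map X) := Measure.isProbabilityMeasure_map hX.aemeasurable
  have hsum : Summable (fun k => ((μ.map X) {k}).toReal * ‖f k‖) := by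
    have : (fun k => ((μ.map X) {k}).toReal * ‖f k‖) = fun k => (1 - a) * (|f k| * a ^ k) := by
      funext k
      have h1 := hreal k
      rw [measureReal_def] at h1
      rw [h1, Real.norm_eq_abs]
      ring
    rw [this]
    exact hf.mul_left _
  have hI : Integrable f (μ.map X) := by
    rw [← Measure.sum_smul_dirac (μ.map X)]
    exact integrable_sum_dirac (fun i => measure_ne_top _ _) hsum
  have hI2 : Integrable (fun ω => f (X ω)) μ := by
    have := (integrable_map_measure hI.aestronglyMeasurable hX.aemeasurable).1 hI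
    exact this
  refine ⟨hI2, ?_⟩
  have h3 : ∫ ω, f (X ω) ∂μ = ∫ k, f k ∂(μ.map X) := by
    rw [integral_map hX.aemeasurable hI.aestronglyMeasurable]
  rw [h3]
  have h4 := hasSum_integral_sum_dirac (x := fun i : ℕ => i) (c := fun i => (μ.map X) {i})
    (f := f) (fun i => measure_ne_top _ _) hsum
  rw [Measure.sum_smul_dirac] at h4
  have h6 : (fun k => (1 - a) * a ^ k * f k) = fun i => ((μ.map X) {i}).toReal • f i := by
    funext k
    have h1 := hreal k
    rw [measureReal_def] at h1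
    rw [h1]
    rfl
  rw [h6]
  exact h4

/-- Polynomial weights are summable. -/
lemma summ_pow {a : ℝ} (ha0 : 0 ≤ a) (ha1 : a < 1) (j : ℕ) :
    Summable (fun k : ℕ => (k : ℝ) ^ j * a ^ k) :=
  summable_pow_mul_geometric_of_norm_lt_one j (by rw [Real.norm_eq_abs, abs_of_nonneg ha0]; exact ha1)

/-- The uniform bound for the fourth moment. -/
noncomputable def M4 (A : ℝ) : ℝ := ∑' k : ℕ, (k : ℝ) ^ 4 * A ^ k

lemma M4_nonneg {A : ℝ} (hA0 : 0 ≤ A) : 0 ≤ M4 A := tsum_nonneg fun k => by positivity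

/-- The first moment. -/
lemma geo_first {Ω : Type} [MeasurableSpace Ω] {μ : Measure Ω} [IsProbabilityMeasure μ] {a : ℝ}
    (ha0 : 0 ≤ a) (ha1 : a < 1) {X : Ω → ℕ} (hX : Measurable X)
    (law : ∀ k, μ.real {ω | X ω = k} = (1 - a) * a ^ k) :
    Integrable (fun ω => (X ω : ℝ)) μ ∧ ∫ ω, (X ω : ℝ) ∂μ = mean a := by
  have hs : Summable (fun k : ℕ => |((k : ℕ) : ℝ)| * a ^ k) := by
    have := summ_pow ha0 ha1 1
    simpa using this
  obtain ⟨h1, h2⟩ := geo_int ha0 ha1 hX law (fun k => (k : ℝ)) hs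
  refine ⟨h1, ?_⟩
  have hn : ‖a‖ < 1 := by rw [Real.norm_eq_abs, abs_of_nonneg ha0]; exact ha1
  have h3 := (hasSum_coe_mul_geometric_of_norm_lt_one hn).mul_left (1 - a)
  have h4 : HasSum (fun k : ℕ => (1 - a) * a ^ k * (k : ℝ)) ((1 - a) * (a / (1 - a) ^ 2)) := by
    have h6 : (fun k : ℕ => (1 - a) * a ^ k * (k : ℝ)) = fun i : ℕ => (1 - a) * (↑i * a ^ i) := by
      funext k
      ring
    rw [h6]
    exact h3
  rw [h2.unique h4, mean]
  have : (1 - a) ≠ 0 := by linarith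
  field_simp

/-- The second moment. -/
lemma geo_second {Ω : Type} [MeasurableSpace Ω] {μ : Measure Ω} [IsProbabilityMeasure μ] {a : ℝ}
    (ha0 : 0 ≤ a) (ha1 : a < 1) {X : Ω → ℕ} (hX : Measurable X)
    (law : ∀ k, μ.real {ω | X ω = k} = (1 - a) * a ^ k) :
    Integrable (fun ω => (X ω : ℝ) ^ 2) μ ∧ ∫ ω, (X ω : ℝ) ^ 2 ∂μ = vari a + (mean a) ^ 2 := by
  have hs : Summable (fun k : ℕ => |((k : ℕ) : ℝ) ^ 2| * a ^ k) := by
    have := summ_pow ha0 ha1 2
    simpa using this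
  obtain ⟨h1, h2⟩ := geo_int ha0 ha1 hX law (fun k => (k : ℝ) ^ 2) hs
  refine ⟨h1, ?_⟩
  have hn : ‖a‖ < 1 := by rw [Real.norm_eq_abs, abs_of_nonneg ha0]; exact ha1
  have e2 := (hasSum_choose_mul_geometric_of_norm_lt_one 2 hn).mul_left (2 * (1 - a))
  have e1 := (hasSum_choose_mul_geometric_of_norm_lt_one 1 hn).mul_left (3 * (1 - a))
  have e0 := (hasSum_choose_mul_geometric_of_norm_lt_one 0 hn).mul_left (1 - a)
  have h3 := (e2.sub e1).add e0
  have h4 : HasSum (fun k : ℕ => (1 - a) * a ^ k * (k : ℝ) ^ 2)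
      (2 * (1 - a) * (1 / (1 - a) ^ (2 + 1)) - 3 * (1 - a) * (1 / (1 - a) ^ (1 + 1))
        + (1 - a) * (1 / (1 - a) ^ (0 + 1))) := by
    suffices h6 : (fun k : ℕ => (1 - a) * a ^ k * (k : ℝ) ^ 2) = fun b : ℕ =>
      2 * (1 - a) * (↑((b + 2).choose 2) * a ^ b) - 3 * (1 - a) * (↑((b + 1).choose 1) * a ^ b) +
        (1 - a) * (↑((b + 0).choose 0) * a ^ b) by
      rw [h6]
      exact h3
    funext k
    have c2 : (((k + 2).choose 2 : ℕ) : ℝ) = ((k : ℝ) + 2) * ((k : ℝ) + 1) / 2 := by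
      rw [Nat.cast_choose_two]
      push_cast
      ring
    have c1 : (((k + 1).choose 1 : ℕ) : ℝ) = (k : ℝ) + 1 := by
      rw [Nat.choose_one_right]
      push_cast
      ring
    have c0 : (((k + 0).choose 0 : ℕ) : ℝ) = 1 := by simp
    rw [c2, c1, c0]
    ring
  rw [h2.unique h4, mean, vari]
  have : (1 - a) ≠ 0 := by linarith
  field_simp
  ring

/-- The fourth moment. -/
lemma geo_fourth {Ω : Type} [MeasurableSpace Ω] {μ : Measure Ω} [IsProbabilityMeasure μ] {a A : ℝ}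
    (ha0 : 0 ≤ a) (haA : a ≤ A) (hA : A < 1) {X : Ω → ℕ} (hX : Measurable X)
    (law : ∀ k, μ.real {ω | X ω = k} = (1 - a) * a ^ k) :
    Integrable (fun ω => (X ω : ℝ) ^ 4) μ ∧ ∫ ω, (X ω : ℝ) ^ 4 ∂μ ≤ M4 A := by
  have ha1 : a < 1 := by linarith
  have hs : Summable (fun k : ℕ => |((k : ℕ) : ℝ) ^ 4| * a ^ k) := by
    have := summ_pow ha0 ha1 4
    refine this.congr fun k => ?_
    rw [abs_of_nonneg (by positivity)]
  obtain ⟨h1, h2⟩ := geo_int ha0 ha1 hX law (fun k => (k : ℝ) ^ 4) hs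
  refine ⟨h1, ?_⟩
  have h3 := (summ_pow (ha0.trans haA) hA 4).hasSum
  refine hasSum_le (fun k => ?_) h2 h3
  have hp : a ^ k ≤ A ^ k := pow_le_pow_left₀ ha0 haA k
  have hk : (0 : ℝ) ≤ (k : ℝ) ^ 4 := by positivity
  have h5 : (1 - a) * a ^ k ≤ A ^ k := by
    have : 0 ≤ a ^ k := pow_nonneg ha0 k
    nlinarith
  calc (1 - a) * a ^ k * (k : ℝ) ^ 4 ≤ A ^ k * (k : ℝ) ^ 4 :=
        mul_le_mul_of_nonneg_right h5 hk
    _ = (k : ℝ) ^ 4 * A ^ k := by ring

lemma iadd {Ω : Type} [MeasurableSpace Ω] {μ : Measure Ω} {f g : Ω → ℝ} (hf : Integrable f μ)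
    (hg : Integrable g μ) : Integrable (fun ω => f ω + g ω) μ ∧
    ∫ ω, (f ω + g ω) ∂μ = ∫ ω, f ω ∂μ + ∫ ω, g ω ∂μ := ⟨hf.add hg, integral_add hf hg⟩

lemma isub {Ω : Type} [MeasurableSpace Ω] {μ : Measure Ω} {f g : Ω → ℝ} (hf : Integrable f μ)
    (hg : Integrable g μ) : Integrable (fun ω => f ω - g ω) μ ∧
    ∫ ω, (f ω - g ω) ∂μ = ∫ ω, f ω ∂μ - ∫ ω, g ω ∂μ := ⟨hf.sub hg, integral_sub hf hg⟩

/-- Fourth moments of sums of independent centred variables. -/
lemma sum_mom {Ω ι : Type} [MeasurableSpace Ω] {μ : Measure Ω} [IsProbabilityMeasure μ]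
    {Y : ι → Ω → ℝ} (hm : ∀ i, Measurable (Y i)) (hind : iIndepFun Y μ)
    (hL : ∀ i, MemLp (Y i) 4 μ) {m2 m4 : ℝ} (h1 : ∀ i, ∫ ω, Y i ω ∂μ = 0)
    (h2 : ∀ i, ∫ ω, (Y i ω) ^ 2 ∂μ = m2) (h4 : ∀ i, ∫ ω, (Y i ω) ^ 4 ∂μ ≤ m4) (s : Finset ι) :
    ∫ ω, (∑ i ∈ s, Y i ω) ∂μ = 0 ∧ ∫ ω, (∑ i ∈ s, Y i ω) ^ 2 ∂μ = s.card * m2 ∧
    ∫ ω, (∑ i ∈ s, Y i ω) ^ 4 ∂μ ≤ s.card * m4 + 3 * (s.card : ℝ) ^ 2 * m2 ^ 2 := by
  classical
  induction s using Finset.induction_on with
  | empty => simp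
  | insert j s hj ih =>
    obtain ⟨i1, i2, i4⟩ := ih
    set S : Ω → ℝ := fun ω => ∑ i ∈ s, Y i ω with hS
    have hSeq : (∑ i ∈ s, Y i) = S := by funext ω; simp [hS]
    have hI : IndepFun S (Y j) μ := by
      have := hind.indepFun_finsetSum_of_notMem hm hj
      rwa [hSeq] at this
    have hSm : Measurable S := by
      rw [hS]; exact Finset.measurable_fun_sum _ fun i _ => hm i
    have hSL : MemLp S 4 μ := memLp_finsetSum _ fun i _ => hL i
    have hYL := hL j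
    -- integrability of powers
    have powint : ∀ {Z : Ω → ℝ}, MemLp Z 4 μ → ∀ k : ℕ, k ≤ 4 → Integrable (fun ω => (Z ω) ^ k) μ := by
      intro Z hZ k hk
      have h5 : MemLp Z (k : ENNReal) μ := hZ.mono_exponent (by exact_mod_cast hk)
      have h6 := h5.integrable_norm_pow' 
      have h7 : AEStronglyMeasurable (fun ω => (Z ω) ^ k) μ := (hZ.1.pow k)
      refine h6.mono' h7 (Filter.Eventually.of_forall fun ω => ?_)
      simp
    have prodint : ∀ k l : ℕ, k ≤ 4 → l ≤ 4 → Integrable (fun ω => (S ω) ^ k * (Y j ω) ^ l) μ ∧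
        ∫ ω, (S ω) ^ k * (Y j ω) ^ l ∂μ = (∫ ω, (S ω) ^ k ∂μ) * ∫ ω, (Y j ω) ^ l ∂μ := by
      intro k l hk hl
      have hI2 : IndepFun (fun ω => (S ω) ^ k) (fun ω => (Y j ω) ^ l) μ :=
        hI.comp (φ := fun x : ℝ => x ^ k) (ψ := fun x : ℝ => x ^ l) (by fun_prop) (by fun_prop)
      refine ⟨hI2.integrable_mul (powint hSL k hk) (powint hYL l hl), ?_⟩
      exact hI2.integral_mul_eq_mul_integral (powint hSL k hk).1 (powint hYL l hl).1
    have hexp : ∀ ω, ∑ i ∈ insert j s, Y i ω = Y j ω + S ω := by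
      intro ω
      rw [Finset.sum_insert hj]
    have hcard : ((insert j s).card : ℝ) = s.card + 1 := by
      rw [Finset.card_insert_of_notMem hj]; push_cast; ring
    simp only [hexp]
    rw [hcard]
    have hS1 : Integrable S μ := by simpa using powint hSL 1 (by norm_num)
    have hY1 : Integrable (Y j) μ := by simpa using powint hYL 1 (by norm_num)
    refine ⟨?_, ?_, ?_⟩
    · rw [integral_add hY1 hS1, h1 j, i1]
      ring
    · have e : ∀ ω, (Y j ω + S ω) ^ 2 = (S ω) ^ 2 + 2 * ((S ω) ^ 1 * (Y j ω) ^ 1) + (Y j ω) ^ 2 := by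
        intro ω; ring
      simp only [e]
      have p11 := prodint 1 1 (by norm_num) (by norm_num)
      have q1 := iadd (powint hSL 2 (by norm_num)) (p11.1.const_mul 2)
      have q2 := iadd q1.1 (powint hYL 2 (by norm_num))
      rw [q2.2, q1.2, integral_const_mul, p11.2, i2, h2 j]
      simp only [pow_one]
      rw [h1 j]
      ring
    · have e : ∀ ω, (Y j ω + S ω) ^ 4 = (S ω) ^ 4 + 4 * ((S ω) ^ 3 * (Y j ω) ^ 1) +
          6 * ((S ω) ^ 2 * (Y j ω) ^ 2) + 4 * ((S ω) ^ 1 * (Y j ω) ^ 3) + (Y j ω) ^ 4 := by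
        intro ω; ring
      simp only [e]
      have p31 := prodint 3 1 (by norm_num) (by norm_num)
      have p22 := prodint 2 2 (by norm_num) (by norm_num)
      have p13 := prodint 1 3 (by norm_num) (by norm_num)
      have a4 := powint hSL 4 (by norm_num)
      have b4 := powint hYL 4 (by norm_num)
      have q1 := iadd a4 (p31.1.const_mul 4)
      have q2 := iadd q1.1 (p22.1.const_mul 6)
      have q3 := iadd q2.1 (p13.1.const_mul 4)
      have q4 := iadd q3.1 b4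
      rw [q4.2, q3.2, q2.2, q1.2, integral_const_mul, integral_const_mul,
        integral_const_mul, p31.2, p22.2, p13.2, i2, h2 j]
      simp only [pow_one]
      rw [h1 j, i1]
      have := h4 j
      have hm2 : 0 ≤ m2 ^ 2 := sq_nonneg _
      nlinarith

/-- The moments of geometric sums. -/
theorem pMom : PMom := by
  intro A hA
  set V : ℝ := 1 / (1 - A) ^ 2 with hV
  set K4 : ℝ := 8 * (|M4 A| + V ^ 4) with hK4
  have hVpos : 0 < V := by
    rw [hV]; have : 0 < 1 - A := by linarith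
    positivity
  refine ⟨K4 + 3 * V ^ 2, by positivity, ?_⟩
  intro Ω _ μ a n X haA hX
  have hprob := hX.prob
  rcases Nat.eq_zero_or_pos n with hn | hn
  · subst hn
    have hz : variance (fun _ : Ω => (0 : ℝ)) μ = 0 := by
      rw [variance_eq_integral (by fun_prop)]
      simp
    refine ⟨by simp, by simp, ?_, by simp⟩
    simp only [Finset.univ_eq_empty, Finset.sum_empty]
    rw [hz]
    simp
  obtain ⟨ha0, ha1⟩ := hX.pos ⟨0, hn⟩
  have hA0 : 0 ≤ A := ha0.trans haA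
  have hmeas := hX.meas
  have hlaw : ∀ i k, μ.real {ω | X i ω = k} = (1 - a) * a ^ k := hX.law
  set Y : Fin n → Ω → ℝ := fun i ω => (X i ω : ℝ) - mean a with hY
  have hYm : ∀ i, Measurable (Y i) := fun i => by
    have : Measurable (fun ω => ((X i ω : ℕ) : ℝ)) := (measurable_from_top (f := fun k : ℕ => (k : ℝ))).comp (hmeas i)
    exact this.sub_const _
  have hYind : iIndepFun Y μ :=
    hX.indep.comp (fun _ (k : ℕ) => (k : ℝ) - mean a) (fun _ => measurable_from_top)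
  have hXL : ∀ i, MemLp (fun ω => (X i ω : ℝ)) 4 μ := by
    intro i
    have h5 := (geo_fourth ha0 haA hA (hmeas i) (hlaw i)).1
    have hmX : AEStronglyMeasurable (fun ω => ((X i ω : ℕ) : ℝ)) μ :=
      ((measurable_from_top (f := fun k : ℕ => (k : ℝ))).comp (hmeas i)).aestronglyMeasurable
    refine (integrable_norm_rpow_iff hmX (by norm_num) (by norm_num)).1 ?_
    refine h5.congr (Filter.Eventually.of_forall fun ω => ?_)
    simp only [Real.norm_eq_abs, Nat.abs_cast]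
    norm_num
  have hYL : ∀ i, MemLp (Y i) 4 μ := fun i => (hXL i).sub (memLp_const _)
  have hmean : ∀ i, ∫ ω, Y i ω ∂μ = 0 := by
    intro i
    obtain ⟨g1, g2⟩ := geo_first ha0 ha1 (hmeas i) (hlaw i)
    rw [hY]
    simp only
    rw [integral_sub g1 (integrable_const _), g2]
    simp
  have hsec : ∀ i, ∫ ω, (Y i ω) ^ 2 ∂μ = vari a := by
    intro i
    obtain ⟨g1, g2⟩ := geo_first ha0 ha1 (hmeas i) (hlaw i)
    obtain ⟨k1, k2⟩ := geo_second ha0 ha1 (hmeas i) (hlaw i)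
    have e : ∀ ω, (Y i ω) ^ 2 = (X i ω : ℝ) ^ 2 - (2 * mean a) * (X i ω : ℝ) + (mean a) ^ 2 := by
      intro ω; simp only [hY]; ring
    simp only [e]
    have q1 := isub k1 (g1.const_mul (2 * mean a))
    have q2 := iadd q1.1 (integrable_const (μ := μ) ((mean a) ^ 2))
    rw [q2.2, q1.2, integral_const_mul, g2, k2]
    simp
    ring
  have h1a : 0 < 1 - a := by linarith
  have h1A : 0 < 1 - A := by linarith
  have hVa : vari a ≤ V := by
    rw [vari, hV]
    apply div_le_div₀ (by norm_num) ha1.le (by positivity)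
    exact pow_le_pow_left₀ h1A.le (by linarith) 2
  have hVa0 : 0 ≤ vari a := by rw [vari]; positivity
  have hMa0 : 0 ≤ mean a := by rw [mean]; positivity
  have hMa : mean a ≤ V := by
    rw [mean, hV, div_le_div_iff₀ h1a (by positivity)]
    have h8 : (1 - A) ^ 2 ≤ (1 - a) := by nlinarith
    nlinarith [sq_nonneg (1 - A)]
  have hfour : ∀ i, ∫ ω, (Y i ω) ^ 4 ∂μ ≤ K4 := by
    intro i
    obtain ⟨g1, g2⟩ := geo_fourth ha0 haA hA (hmeas i) (hlaw i)
    have hle : ∀ ω, (Y i ω) ^ 4 ≤ 8 * (X i ω : ℝ) ^ 4 + 8 * (mean a) ^ 4 := by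
      intro ω
      simp only [hY]
      set x : ℝ := (X i ω : ℝ)
      set m : ℝ := mean a
      nlinarith [sq_nonneg (x ^ 2 - m ^ 2), sq_nonneg (x + m), sq_nonneg ((x + m) ^ 2), sq_nonneg (x * (x + m)), sq_nonneg (m * (x + m)), sq_nonneg ((x-m)*(x+m)), sq_nonneg (x^2 + m^2), mul_nonneg (sq_nonneg (x + m)) (sq_nonneg (x - m)), mul_nonneg (sq_nonneg (x + m)) (sq_nonneg x), mul_nonneg (sq_nonneg (x + m)) (sq_nonneg m), mul_nonneg (sq_nonneg (x + m)) (sq_nonneg (x + m))]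
    have hint : Integrable (fun ω => (Y i ω) ^ 4) μ := by
      refine Integrable.mono' ((g1.const_mul 8).add (integrable_const (8 * (mean a) ^ 4)))
        ((hYm i).pow_const 4).aestronglyMeasurable (Filter.Eventually.of_forall fun ω => ?_)
      rw [Real.norm_eq_abs, abs_of_nonneg (by positivity)]
      exact hle ω
    calc ∫ ω, (Y i ω) ^ 4 ∂μ ≤ ∫ ω, (8 * (X i ω : ℝ) ^ 4 + 8 * (mean a) ^ 4) ∂μ :=
          integral_mono hint ((g1.const_mul 8).add (integrable_const _)) hle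
      _ = 8 * ∫ ω, (X i ω : ℝ) ^ 4 ∂μ + 8 * (mean a) ^ 4 := by
          rw [integral_add (g1.const_mul 8) (integrable_const _), integral_const_mul]
          simp
      _ ≤ K4 := by
          rw [hK4]
          have h9 : (mean a) ^ 4 ≤ V ^ 4 := pow_le_pow_left₀ hMa0 hMa 4
          have h10 : M4 A ≤ |M4 A| := le_abs_self _
          linarith
  obtain ⟨s1, s2, s4⟩ := sum_mom hYm hYind hYL hmean hsec hfour (Finset.univ : Finset (Fin n))
  simp only [Finset.card_univ, Fintype.card_fin] at s1 s2 s4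
  have hrel : ∀ ω, ∑ i, Y i ω = ∑ i, (X i ω : ℝ) - n * mean a := by
    intro ω
    simp [hY]
  simp only [hrel] at s1 s2 s4
  have hsumL : MemLp (fun ω => ∑ i, (X i ω : ℝ)) 4 μ := memLp_finsetSum _ fun i _ => hXL i
  have hsumI : Integrable (fun ω => ∑ i, (X i ω : ℝ)) μ := hsumL.integrable (by norm_num)
  have hE : ∫ ω, ∑ i, (X i ω : ℝ) ∂μ = n * mean a := by
    rw [integral_sub hsumI (integrable_const _)] at s1
    simp at s1
    linarith
  refine ⟨hsumL, hE, ?_, ?_⟩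
  · rw [variance_eq_integral hsumI.aemeasurable, hE]
    exact s2
  · refine s4.trans ?_
    have hn1 : (1 : ℝ) ≤ n := by exact_mod_cast hn
    have hv2 : (vari a) ^ 2 ≤ V ^ 2 := pow_le_pow_left₀ hVa0 hVa 2
    have hK : 0 ≤ K4 := by positivity
    have hn2 : (n : ℝ) ≤ (n : ℝ) ^ 2 := by nlinarith
    have e1 : (n : ℝ) * K4 ≤ (n : ℝ) ^ 2 * K4 := mul_le_mul_of_nonneg_right hn2 hK
    have e2 : 3 * (n : ℝ) ^ 2 * (vari a) ^ 2 ≤ 3 * (n : ℝ) ^ 2 * V ^ 2 :=
      mul_le_mul_of_nonneg_left hv2 (by positivity)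
    linarith

/-- Paley-Zygmund for centred variables with a fourth moment. -/
lemma pz {Ω : Type} [MeasurableSpace Ω] {μ : Measure Ω} [IsProbabilityMeasure μ] {Z : Ω → ℝ}
    (hm : Measurable Z) (hL : MemLp Z 4 μ) {c V C s : ℝ} (hc : 0 < c) (hV : 0 < V) (hC : 0 < C)
    (hs : 0 < s) (h1 : ∫ ω, Z ω ∂μ = 0) (h2 : c * s ^ 2 ≤ ∫ ω, (Z ω) ^ 2 ∂μ)
    (h2' : ∫ ω, (Z ω) ^ 2 ∂μ ≤ V * s ^ 2) (h4 : ∫ ω, (Z ω) ^ 4 ∂μ ≤ C * s ^ 4)
    {α κ₁ δ κ : ℝ} (hα : 0 < α) (hα2 : α ^ 2 * (2 * C) ≤ c) (hκ₁ : κ₁ = α * c / 2)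
    (hδ : δ = κ₁ / (8 * V)) (hκ0 : 0 ≤ κ) (hκa : κ ≤ κ₁ / 8) (hκb : κ ≤ δ * κ₁) :
    κ ≤ μ.real {ω | κ * s ≤ Z ω} := by
  have hκ₁p : 0 < κ₁ := by rw [hκ₁]; positivity
  have hδp : 0 < δ := by rw [hδ]; positivity
  have powint : ∀ k : ℕ, k ≤ 4 → Integrable (fun ω => (Z ω) ^ k) μ := by
    intro k hk
    have h5 : MemLp Z (k : ENNReal) μ := hL.mono_exponent (by exact_mod_cast hk)
    have h6 := h5.integrable_norm_pow' 
    have h7 : AEStronglyMeasurable (fun ω => (Z ω) ^ k) μ := (hL.1.pow k)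
    refine h6.mono' h7 (Filter.Eventually.of_forall fun ω => ?_)
    simp
  have hZ1 : Integrable Z μ := by simpa using powint 1 (by norm_num)
  have hZ2 := powint 2 (by norm_num)
  have hZ4 := powint 4 (by norm_num)
  have hZabs : Integrable (fun ω => |Z ω|) μ := hZ1.abs
  -- lower bound for the first absolute moment
  have hpt : ∀ z : ℝ, α / s * z ^ 2 - α ^ 3 / s ^ 3 * z ^ 4 ≤ |z| := by
    intro z
    set u : ℝ := α * |z| / s with hu
    have hu0 : 0 ≤ u := by rw [hu]; positivity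
    have hz : |z| = u * s / α := by rw [hu]; field_simp
    have hz2 : z ^ 2 = (u * s / α) ^ 2 := by rw [← hz, sq_abs]
    have hz4 : z ^ 4 = (u * s / α) ^ 4 := by
      have : z ^ 4 = (z ^ 2) ^ 2 := by ring
      rw [this, hz2]; ring
    rw [hz, hz2, hz4]
    have e : α / s * (u * s / α) ^ 2 - α ^ 3 / s ^ 3 * (u * s / α) ^ 4 = (s / α) * (u ^ 2 - u ^ 4) := by
      field_simp
    have e2 : u * s / α = (s / α) * u := by ring
    rw [e, e2]
    apply mul_le_mul_of_nonneg_left _ (by positivity)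
    rcases le_total u 1 with h | h
    · nlinarith [pow_nonneg hu0 4]
    · have : u ^ 2 ≤ u ^ 4 := pow_le_pow_right₀ h (by norm_num)
      linarith
  have habs : κ₁ * s ≤ ∫ ω, |Z ω| ∂μ := by
    have hle : ∫ ω, (α / s * (Z ω) ^ 2 - α ^ 3 / s ^ 3 * (Z ω) ^ 4) ∂μ ≤ ∫ ω, |Z ω| ∂μ :=
      integral_mono ((hZ2.const_mul _).sub (hZ4.const_mul _)) hZabs fun ω => hpt (Z ω)
    rw [integral_sub (hZ2.const_mul _) (hZ4.const_mul _), integral_const_mul, integral_const_mul] at hle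
    have g1 : α * c * s ≤ α / s * ∫ ω, (Z ω) ^ 2 ∂μ := by
      have : α / s * (c * s ^ 2) ≤ α / s * ∫ ω, (Z ω) ^ 2 ∂μ :=
        mul_le_mul_of_nonneg_left h2 (by positivity)
      have e : α / s * (c * s ^ 2) = α * c * s := by field_simp
      rwa [e] at this
    have g2 : α ^ 3 / s ^ 3 * ∫ ω, (Z ω) ^ 4 ∂μ ≤ α ^ 3 * C * s := by
      have : α ^ 3 / s ^ 3 * ∫ ω, (Z ω) ^ 4 ∂μ ≤ α ^ 3 / s ^ 3 * (C * s ^ 4) :=
        mul_le_mul_of_nonneg_left h4 (by positivity)
      have e : α ^ 3 / s ^ 3 * (C * s ^ 4) = α ^ 3 * C * s := by field_simp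
      rwa [e] at this
    have g3 : α ^ 3 * C * s ≤ α * c / 2 * s := by
      have : α * (α ^ 2 * (2 * C)) ≤ α * c := mul_le_mul_of_nonneg_left hα2 hα.le
      have h9 : α ^ 3 * C ≤ α * c / 2 := by nlinarith
      exact mul_le_mul_of_nonneg_right h9 hs.le
    rw [hκ₁]
    nlinarith
  -- positive part
  have hpos : ∫ ω, max (Z ω) 0 ∂μ = (∫ ω, |Z ω| ∂μ) / 2 := by
    have e : ∀ ω, max (Z ω) 0 = (1 / 2) * (|Z ω| + Z ω) := by
      intro ω
      rcases le_total 0 (Z ω) with h | h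
      · rw [max_eq_left h, abs_of_nonneg h]; ring
      · rw [max_eq_right h, abs_of_nonpos h]; ring
    simp only [e]
    rw [integral_const_mul, integral_add hZabs hZ1, h1]
    ring
  set B : Set Ω := {ω | κ * s ≤ Z ω} with hB
  have hBm : MeasurableSet B := measurableSet_le measurable_const hm
  have hle : ∀ ω, max (Z ω) 0 ≤ κ * s + δ / s * (Z ω) ^ 2 + s / (4 * δ) * B.indicator (fun _ => (1 : ℝ)) ω := by
    intro ω
    by_cases hω : ω ∈ B
    · rw [Set.indicator_of_mem hω]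
      have h0 : 0 ≤ Z ω := le_trans (by positivity) hω
      rw [max_eq_left h0]
      have key : Z ω ≤ δ / s * (Z ω) ^ 2 + s / (4 * δ) * 1 := by
        have e : δ / s * (Z ω) ^ 2 + s / (4 * δ) * 1 - Z ω = (2 * δ * Z ω - s) ^ 2 / (4 * δ * s) := by
          field_simp
          ring
        have : 0 ≤ (2 * δ * Z ω - s) ^ 2 / (4 * δ * s) := by positivity
        linarith
      have : 0 ≤ κ * s := by positivity
      linarith
    · rw [Set.indicator_of_notMem hω]
      have h0 : Z ω < κ * s := not_le.1 hω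
      have : 0 ≤ κ * s := by positivity
      have h3 : max (Z ω) 0 ≤ κ * s := max_le h0.le this
      have h4 : 0 ≤ δ / s * (Z ω) ^ 2 := by positivity
      linarith
  have hindI : Integrable (B.indicator (fun _ => (1 : ℝ))) μ := (integrable_const (1 : ℝ)).indicator hBm
  have hfin : ∫ ω, max (Z ω) 0 ∂μ ≤ κ * s + δ / s * (∫ ω, (Z ω) ^ 2 ∂μ) + s / (4 * δ) * μ.real B := by
    have h5 := integral_mono (μ := μ) (hZ1.sup (integrable_const (0 : ℝ)))
      (((integrable_const (κ * s)).add (hZ2.const_mul (δ / s))).add (hindI.const_mul (s / (4 * δ))))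
      (fun ω => hle ω)
    have e1 : ∫ ω, B.indicator (fun _ => (1 : ℝ)) ω ∂μ = μ.real B := by
      rw [integral_indicator hBm]
      simp
    have h6 : ∫ ω, (κ * s + δ / s * (Z ω) ^ 2 + s / (4 * δ) * B.indicator (fun _ => (1 : ℝ)) ω) ∂μ
        = κ * s + δ / s * (∫ ω, (Z ω) ^ 2 ∂μ) + s / (4 * δ) * μ.real B := by
      have q1 := iadd (integrable_const (μ := μ) (κ * s)) (hZ2.const_mul (δ / s))
      have q2 := iadd q1.1 (hindI.const_mul (s / (4 * δ)))
      have e2 : ∫ ω, s / (4 * δ) * B.indicator (fun _ => (1 : ℝ)) ω ∂μ = s / (4 * δ) * μ.real B := by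
        rw [integral_const_mul, e1]
      have e3 : ∫ ω, δ / s * (Z ω) ^ 2 ∂μ = δ / s * ∫ ω, (Z ω) ^ 2 ∂μ := by
        rw [integral_const_mul]
      rw [q2.2, q1.2, e3, e2]
      simp
    rw [← h6]
    exact h5
  rw [hpos] at hfin
  have g4 : δ / s * (∫ ω, (Z ω) ^ 2 ∂μ) ≤ κ₁ / 8 * s := by
    have : δ / s * (∫ ω, (Z ω) ^ 2 ∂μ) ≤ δ / s * (V * s ^ 2) :=
      mul_le_mul_of_nonneg_left h2' (by positivity)
    have e : δ / s * (V * s ^ 2) = κ₁ / 8 * s := by rw [hδ]; field_simp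
    rwa [e] at this
  have g5 : κ * s ≤ κ₁ / 8 * s := mul_le_mul_of_nonneg_right hκa hs.le
  have g6 : κ₁ / 4 * s ≤ s / (4 * δ) * μ.real B := by linarith
  have g7 : δ * κ₁ ≤ μ.real B := by
    have e : s / (4 * δ) * μ.real B = s * (μ.real B / (4 * δ)) := by ring
    rw [e, mul_comm (κ₁ / 4) s] at g6
    have g8 := le_of_mul_le_mul_left g6 hs
    rw [le_div_iff₀ (by positivity)] at g8
    linarith
  exact hκb.trans g7

/-- Anti-concentration. -/
theorem pAnti : PAnti := by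
  intro A' A hA' hA
  obtain ⟨C, hC, hmom⟩ := pMom A hA
  set V : ℝ := 1 / (1 - A) ^ 2 with hV
  have h1A : 0 < 1 - A := by linarith
  have hVpos : 0 < V := by rw [hV]; positivity
  set α : ℝ := Real.sqrt (A' / (2 * C)) with hα
  have hαp : 0 < α := Real.sqrt_pos.2 (by positivity)
  have hα2 : α ^ 2 * (2 * C) ≤ A' := by
    rw [hα, Real.sq_sqrt (by positivity)]
    apply le_of_eq
    field_simp
  set κ₁ : ℝ := α * A' / 2 with hκ₁
  have hκ₁p : 0 < κ₁ := by rw [hκ₁]; positivity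
  set δ : ℝ := κ₁ / (8 * V) with hδ
  have hδp : 0 < δ := by rw [hδ]; positivity
  refine ⟨min (κ₁ / 8) (δ * κ₁), lt_min (by positivity) (by positivity), ?_⟩
  intro Ω _ μ a n X hn ha' haA hX
  set κ : ℝ := min (κ₁ / 8) (δ * κ₁) with hκ
  have hκ0 : 0 ≤ κ := le_of_lt (lt_min (by positivity) (by positivity))
  have hprob := hX.prob
  obtain ⟨hsumL, hE, hvar, h4⟩ := hmom μ a n X haA hX
  set Z : Ω → ℝ := fun ω => ∑ i, (X i ω : ℝ) - n * mean a with hZ
  have hZL : MemLp Z 4 μ := hsumL.sub (memLp_const _)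
  have hsumI : Integrable (fun ω => ∑ i, (X i ω : ℝ)) μ := hsumL.integrable (by norm_num)
  have hZm : Measurable Z := by
    refine Measurable.sub_const (Finset.measurable_fun_sum _ fun i _ => ?_) _
    exact (measurable_from_top (f := fun k : ℕ => (k : ℝ))).comp (hX.meas i)
  have hn1 : (1 : ℝ) ≤ n := by exact_mod_cast hn
  set s : ℝ := Real.sqrt n with hs
  have hsp : 0 < s := Real.sqrt_pos.2 (by linarith)
  have hs2 : s ^ 2 = n := Real.sq_sqrt (by linarith)
  have hs4 : s ^ 4 = (n : ℝ) ^ 2 := by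
    have : s ^ 4 = (s ^ 2) ^ 2 := by ring
    rw [this, hs2]
  have hZ1 : ∫ ω, Z ω ∂μ = 0 := by
    rw [hZ]
    simp only
    rw [integral_sub hsumI (integrable_const _), hE]
    simp
  have hZ2 : ∫ ω, (Z ω) ^ 2 ∂μ = n * vari a := by
    rw [variance_eq_integral hsumI.aemeasurable, hE] at hvar
    exact hvar
  have ha0 : 0 < a := by linarith
  have h1a : 0 < 1 - a := by linarith
  have hva : A' ≤ vari a := by
    rw [vari, le_div_iff₀ (by positivity)]
    have : (1 - a) ^ 2 ≤ 1 := by nlinarith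
    nlinarith
  have hVa : vari a ≤ V := by
    rw [vari, hV]
    apply div_le_div₀ (by norm_num) (by linarith) (by positivity)
    exact pow_le_pow_left₀ h1A.le (by linarith) 2
  have hlow : A' * s ^ 2 ≤ ∫ ω, (Z ω) ^ 2 ∂μ := by
    rw [hZ2, hs2, mul_comm]
    exact mul_le_mul_of_nonneg_left hva (by linarith)
  have hupp : ∫ ω, (Z ω) ^ 2 ∂μ ≤ V * s ^ 2 := by
    rw [hZ2, hs2, mul_comm]
    exact mul_le_mul_of_nonneg_right hVa (by linarith)
  have hfour : ∫ ω, (Z ω) ^ 4 ∂μ ≤ C * s ^ 4 := by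
    rw [hs4]
    exact h4
  constructor
  · have := pz hZm hZL hA' hVpos hC hsp hZ1 hlow hupp hfour hαp hα2 hκ₁ hδ hκ0
      (min_le_left _ _) (min_le_right _ _)
    refine this.trans (le_of_eq ?_)
    congr 1
    ext ω
    simp only [Set.mem_ofPred_eq, hZ]
    constructor <;> intro h <;> linarith
  · have hneg1 : ∫ ω, (fun ω => - Z ω) ω ∂μ = 0 := by
      simp only
      rw [integral_neg, hZ1, neg_zero]
    have hneg2 : ∀ k : ℕ, Even k → ∫ ω, ((fun ω => - Z ω) ω) ^ k ∂μ = ∫ ω, (Z ω) ^ k ∂μ := by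
      intro k hk
      congr 1
      ext ω
      simp only
      rw [hk.neg_pow]
    have := pz (Z := fun ω => - Z ω) hZm.neg hZL.neg hA' hVpos hC hsp hneg1
      (by rw [hneg2 2 (by decide)]; exact hlow) (by rw [hneg2 2 (by decide)]; exact hupp)
      (by rw [hneg2 4 (by decide)]; exact hfour) hαp hα2 hκ₁ hδ hκ0
      (min_le_left _ _) (min_le_right _ _)
    refine this.trans (le_of_eq ?_)
    congr 1
    ext ω
    simp only [Set.mem_ofPred_eq, hZ]
    constructor <;> intro h <;> linarith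

end Pool.Agent.W990.LP.Mom
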